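import Pool.Agent.H30.AX.Targets

/-!
# MP_70ba79_ag, board `aw_modules`: PV3, the projective covers
-/

set_option autoImplicit false

namespace Pool.Agent.H1.AX

open MvPolynomial SC Pool.Agent.H27.LV Pool.Agent.H30.AV Pool.Agent.H30.AW Pool.Agent.H30.AX

private theorem aeval_scale {k K σ : Type} [Field k] [Field K] [Algebra k K]
    {g : MvPolynomial σ k} {d : ℕ} (hg : g.IsHomogeneous d) (c : K) (z : σ → K) :
    aeval (fun j => c * z j) g = c ^ d * aeval z g := by
  rw [MvPolynomial.aeval_def, MvPolynomial.aeval_def, MvPolynomial.eval₂_eq, MvPolynomial.eval₂_eq,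
    Finset.mul_sum]
  refine Finset.sum_congr rfl fun m hm => ?_
  have h1 : ∑ i ∈ m.support, m i = d := by
    have := hg (MvPolynomial.mem_support_iff.1 hm)
    rw [Finsupp.weight_apply, Finsupp.sum] at this
    simpa using this
  simp only [mul_pow, Finset.prod_mul_distrib, Finset.prod_pow_eq_pow_sum, h1]
  ring

private theorem fv_scale {k K : Type} [Field k] [Field K] [Algebra k K] {n e : ℕ}
    (a : Mon (n + 1) e → k) (c : K) (z : Fin (n + 1) → K) :
    fv a (fun j => c * z j) = c ^ e * fv a z := by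
  unfold fv
  rw [Finset.mul_sum]
  refine Finset.sum_congr rfl fun M _ => ?_
  simp only [mul_pow, Finset.prod_mul_distrib, Finset.prod_pow_eq_pow_sum, M.2]
  ring

private theorem ord_ge_pole {k K : Type} [Field k] [Field K] [Algebra k K] {ι : Type} [Fintype ι]
    (v : DV k K) (z : ι → K) (j : ι) : -(poleOrder v z : ℤ) ≤ v.ord (z j) := by
  have h1 : (-(v.ord (z j))).toNat ≤ poleOrder v z :=
    Finset.le_sup (f := fun i => (-(v.ord (z i))).toNat) (Finset.mem_univ j)
  have h2 : -(v.ord (z j)) ≤ ((-(v.ord (z j))).toNat : ℤ) := Int.self_le_toNat _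
  have h3 : ((-(v.ord (z j))).toNat : ℤ) ≤ (poleOrder v z : ℤ) := by exact_mod_cast h1
  linarith

private theorem ord_fv {k K : Type} [Field k] [Field K] [Algebra k K] {n e : ℕ}
    (v : DV k K) (a : Mon (n + 1) e → k) (z : Fin (n + 1) → K) (h : fv a z ≠ 0) :
    -((e : ℤ) * poleOrder v z) ≤ v.ord (fv a z) := by
  unfold fv at h ⊢
  refine v.ord_sum_ge _ _ (fun M _ hM => ?_) h
  have h1 : algebraMap k K (a M) ≠ 0 := left_ne_zero_of_mul hM
  have h2 : ∏ j, z j ^ M.1 j ≠ 0 := right_ne_zero_of_mul hM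
  rw [v.ord_mul _ _ h1 h2, v.ord_base, zero_add,
    v.ord_prod _ _ (fun j _ => (Finset.prod_ne_zero_iff.1 h2) j (Finset.mem_univ j))]
  have h3 : (e : ℤ) = ∑ j, (M.1 j : ℤ) := by
    have := M.2
    exact_mod_cast this.symm
  rw [h3, Finset.sum_mul, ← Finset.sum_neg_distrib]
  refine Finset.sum_le_sum fun j _ => ?_
  rw [v.ord_pow]
  have := ord_ge_pole v z j
  have h4 : (0 : ℤ) ≤ M.1 j := Int.natCast_nonneg _
  nlinarith

theorem pf_PV3 (hPJ3 : T_PJ3) (hCH3 : T_CH3) : T_PV3 := by
  intro k _ _ _ n r e q Q hr he hQh hdim hnum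
  obtain ⟨Δ, B, hΔ, hB, H⟩ := hPJ3 k e n r e q Q he hr (by omega) hQh hdim hnum
  refine ⟨Δ, B, hΔ, fun a ha => ?_⟩
  intro K _ _ _ htr w hw1 hP hnc hh D hD
  obtain ⟨z0, hz0⟩ : ∃ z0 : Fin (n + 1) → K, z0 = fun j => w (Sum.inl j) := ⟨_, rfl⟩
  obtain ⟨x0, hx0⟩ : ∃ x0 : Fin q → K, x0 = fun i => w (Sum.inr i) := ⟨_, rfl⟩
  have hx0ne : ∀ i, x0 i ≠ 0 := by
    intro i h0
    apply hh
    rw [map_prod]
    apply Finset.prod_eq_zero (Finset.mem_univ i)
    rw [aeval_X]
    rw [hx0] at h0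
    exact h0
  have hQ0 : ∀ g ∈ Q, aeval z0 g = 0 := by
    intro g hg
    have h1 := hP _ (Or.inl ⟨g, hg, rfl⟩)
    rw [aeval_rename] at h1
    rw [hz0]
    exact h1
  have hfv0 : ∀ i, x0 i ^ e = fv (a i) z0 := by
    intro i
    have h1 := hP _ (Or.inr ⟨i, rfl⟩)
    simp only [map_sub, map_pow, aeval_X, map_sum, map_mul, map_prod, aeval_C, sub_eq_zero] at h1
    rw [hx0, hz0]
    exact h1
  have he1 : 1 ≤ e := by omega
  have hne : ∃ j0, z0 j0 ≠ 0 := by
    by_contra hcon
    push Not at hcon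
    have h0 : ∀ i : Fin q, False := by
      intro i
      have h1 : fv (a i) z0 = 0 := by
        have h2 : z0 = fun j => (0 : K) * z0 j := by
          funext j
          rw [zero_mul, hcon j]
        rw [h2, fv_scale, zero_pow (by omega), zero_mul]
      have h3 := hfv0 i
      rw [h1] at h3
      exact hx0ne i (pow_eq_zero_iff (by omega) |>.1 h3)
    obtain ⟨j, hj⟩ := hw1
    rcases j with j | i
    · have := hcon j
      rw [hz0] at this
      simp only at this
      rw [this] at hj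
      exact zero_ne_one hj
    · exact h0 i
  obtain ⟨j0, hj0⟩ := hne
  obtain ⟨c, hc⟩ : ∃ c : K, c = (w (Sum.inl j0))⁻¹ := ⟨_, rfl⟩
  have hwj : w (Sum.inl j0) ≠ 0 := by rw [hz0] at hj0; exact hj0
  have hc0 : c ≠ 0 := by rw [hc]; exact inv_ne_zero hwj
  have hdeg := hCH3 k K htr _ w hw1 (Sum.inl j0) hwj
  obtain ⟨z, hz⟩ : ∃ z : Fin (n + 1) → K, z = fun j => c * z0 j := ⟨_, rfl⟩
  obtain ⟨x, hx⟩ : ∃ x : Fin q → K, x = fun i => c * x0 i := ⟨_, rfl⟩
  have hw' : (fun j => w j / w (Sum.inl j0)) = Sum.elim z x := by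
    funext j
    rcases j with j | i
    · rw [Sum.elim_inl, hz, hz0, hc, div_eq_mul_inv, mul_comm]
    · rw [Sum.elim_inr, hx, hx0, hc, div_eq_mul_inv, mul_comm]
  have hzj0 : z j0 = 1 := by
    rw [hz, hc, hz0]
    exact inv_mul_cancel₀ hwj
  have hQz : ∀ g ∈ Q, aeval z g = 0 := by
    intro g hg
    obtain ⟨d, hd⟩ := hQh g hg
    rw [hz, aeval_scale hd, hQ0 g hg, mul_zero]
  have hfv : ∀ i, x i ^ e = fv (a i) z := by
    intro i
    rw [hz, fv_scale, ← hfv0 i, hx, mul_pow]
  have hxne : ∀ i, x i ≠ 0 := by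
    intro i
    rw [hx]
    exact mul_ne_zero hc0 (hx0ne i)
  have hfne : ∀ i, fv (a i) z ≠ 0 := by
    intro i
    rw [← hfv i]
    exact pow_ne_zero _ (hxne i)
  have hznc : ∃ j, z j ∉ Set.range (algebraMap k K) := by
    by_contra hcon
    push Not at hcon
    have hzr : ∀ j, z j ∈ (algebraMap k K).range := fun j => hcon j
    have hxr : ∀ i, x i ∈ Set.range (algebraMap k K) := by
      intro i
      have h1 : fv (a i) z ∈ (algebraMap k K).range :=
        sum_mem fun M _ => mul_mem ⟨_, rfl⟩ (prod_mem fun j _ => pow_mem (hzr j) _)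
      obtain ⟨b, hb⟩ := h1
      have h4 : IsAlgebraic k (x i ^ e) := by
        rw [hfv i, ← hb]
        exact isAlgebraic_algebraMap b
      exact mem_range_of_isAlgebraic (h4.of_pow (by omega))
    have hall : ∀ j, w j / w (Sum.inl j0) ∈ Set.range (algebraMap k K) := by
      intro j
      have h1 : w j / w (Sum.inl j0) = Sum.elim z x j := congrFun hw' j
      rw [h1]
      rcases j with j | i
      · exact hcon j
      · exact hxr i
    obtain ⟨j1, hj1⟩ := hw1
    obtain ⟨b1, hb1⟩ := hall j1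
    rw [hj1, one_div] at hb1
    obtain ⟨j, hj⟩ := hnc
    obtain ⟨b, hb⟩ := hall j
    apply hj
    refine ⟨b / b1, ?_⟩
    rw [map_div₀, hb, hb1]
    field_simp
  have hlow : ∀ (v : DV k K) (i : Fin q), 0 ≤ v.ord (x i) + poleOrder v z := by
    intro v i
    have h1 := ord_fv v (a i) z (hfne i)
    rw [← hfv i, v.ord_pow] at h1
    have h2 : (1 : ℤ) ≤ e := by exact_mod_cast he1
    by_contra hcon
    push Not at hcon
    nlinarith
  have hbd := H a ha K htr ∅ z D hD ⟨j0, hzj0⟩ hQz hznc hfne (fun v _ i => by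
    have h1 := hlow v i
    rw [← hfv i, v.ord_pow, ← mul_add]
    have h2 : (0 : ℤ) ≤ e := Int.natCast_nonneg _
    rcases h1.eq_or_lt with h3 | h3
    · left
      rw [← h3, mul_zero]
    · right
      nlinarith)
  have hdeg2 : deg k (Sum.elim z x) = deg k z := by
    unfold deg
    congr 1
    funext v
    apply le_antisymm
    · unfold poleOrder
      apply Finset.sup_le
      rintro (j | i) _
      · exact Finset.le_sup (f := fun i => (-(v.ord (z i))).toNat) (Finset.mem_univ j)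
      · have h1 := hlow v i
        have h2 : (-(v.ord (Sum.elim z x (Sum.inr i)))).toNat ≤ poleOrder v z := by
          rw [Sum.elim_inr, Int.toNat_le]
          linarith
        exact h2
    · unfold poleOrder
      apply Finset.sup_le
      intro j _
      exact Finset.le_sup (f := fun i => (-(v.ord (Sum.elim z x i))).toNat)
        (Finset.mem_univ (Sum.inl j))
  rw [← hdeg, hw', hdeg2]
  simpa using hbd

end Pool.Agent.H1.AX
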